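import Pool.Agent.Helper136_OrPath.MainT

set_option autoImplicit false

/-!
# All oriented paths in oriented graphs with bounded ratio of out- and indegrees

If in an oriented graph every out- and indegree is at least `k / 2 + E`, and at each vertex the
outdegree and the indegree differ by a factor of at most `lam`, where `E ^ 4` is at least
`10 ^ 6 * k ^ 3 * log (k + lam)`, then the graph contains every oriented path of length `k`,
starting at any prescribed vertex.  There is no upper bound on the degrees.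
-/

namespace Pool.Agent.Results.MP_f8e2d3_co.BoundedRatio

open Finset Pool.Agent.Helper136_OrPath

theorem result :
    ∀ (k lam : ℕ) (E : ℝ) (V : Type) [Finite V] (G : Digraph V),
      (∀ v, ¬ G.Adj v v) →
      (∀ u v, G.Adj u v → ¬ G.Adj v u) →
      1 ≤ lam →
      (∀ v, {w | G.Adj v w}.ncard ≤ lam * {w | G.Adj w v}.ncard ∧
        {w | G.Adj w v}.ncard ≤ lam * {w | G.Adj v w}.ncard) →
      0 ≤ E → 10 ^ 6 * (k : ℝ) ^ 3 * Real.log ((k : ℝ) + (lam : ℝ)) ≤ E ^ 4 →
      (∀ v, (k : ℝ) / 2 + E ≤ ({w | G.Adj v w}.ncard : ℝ) ∧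
        (k : ℝ) / 2 + E ≤ ({w | G.Adj w v}.ncard : ℝ)) →
      ∀ (σ : Fin k → Bool) (v₀ : V), ∃ f : Fin (k + 1) → V, Function.Injective f ∧ f 0 = v₀ ∧
        ∀ i : Fin k, (σ i = true → G.Adj (f i.castSucc) (f i.succ)) ∧
          (σ i = false → G.Adj (f i.succ) (f i.castSucc)) := by
  classical
  intro k lam E V _ G _ hasym hlam1 hratio hE0 hE hd σ v₀
  have : Fintype V := Fintype.ofFinite V
  have hcard : ∀ (b : Bool) (v : V), (nb G.Adj b v).card =
      if b then {w | G.Adj v w}.ncard else {w | G.Adj w v}.ncard := by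
    intro b v
    cases b
    · rw [if_neg (by simp)]
      rw [← Set.ncard_coe_finset]
      congr 1
      ext z
      simp [mem_nb]
    · rw [if_pos rfl]
      rw [← Set.ncard_coe_finset]
      congr 1
      ext z
      simp [mem_nb]
  have hlow : ∀ (b : Bool) (v : V), ⌈(k : ℝ) / 2 + E⌉₊ ≤ (nb G.Adj b v).card := by
    intro b v
    rw [hcard]
    cases b
    · rw [if_neg (by simp)]
      exact Nat.ceil_le.2 (hd v).2
    · rw [if_pos rfl]
      exact Nat.ceil_le.2 (hd v).1
  have hrat : ∀ (b : Bool) (v : V), (nb G.Adj (!b) v).card ≤ lam * (nb G.Adj b v).card := by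
    intro b v
    rw [hcard, hcard]
    cases b
    · rw [Bool.not_false, if_pos rfl, if_neg (by simp)]
      exact (hratio v).1
    · rw [Bool.not_true, if_neg (by simp), if_pos rfl]
      exact (hratio v).2
  obtain ⟨w, hw0, hw1, hw2⟩ := main_parity G.Adj hasym
    (fun i => if h : i < k then σ ⟨i, h⟩ else true) (fun _ => univ) k ⌈(k : ℝ) / 2 + E⌉₊ lam E
    (fun _ => 0) (fun _ => by norm_num)
    (fun i x _ => ⟨hlow _ x, Finset.subset_univ _⟩)
    (by
      intro j x _ b' _
      generalize (if h : j < k then σ ⟨j, h⟩ else true) = b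
      by_cases hb : b' = b
      · rw [hb]; exact hrat b x
      · have hb2 : (!b') = b := by
          cases b <;> cases b' <;> simp_all
        rw [hb2]
        exact Nat.le_mul_of_pos_left _ hlam1)
    hlam1 hE0 hE (Nat.le_ceil _) v₀ (mem_univ _)
  refine ⟨fun i => w i, ?_, hw0, ?_⟩
  · intro a b hab
    have := hw2 a (by omega) b (by omega) hab
    exact Fin.ext this
  · intro i
    have h1 := hw1 i i.isLt
    rw [mem_nb, dif_pos i.isLt] at h1
    constructor
    · intro hi
      have hi' : σ ⟨(i : ℕ), i.isLt⟩ = true := hi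
      rw [hi', if_pos rfl] at h1
      exact h1
    · intro hi
      have hi' : σ ⟨(i : ℕ), i.isLt⟩ = false := hi
      rw [hi', if_neg (by simp)] at h1
      exact h1

end Pool.Agent.Results.MP_f8e2d3_co.BoundedRatio
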