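import Pool.Agent.Helper136_OrPath.PathTwo

set_option autoImplicit false

/-!
# A threshold for every oriented path, grown from an interior vertex in both directions

Let `P` be an oriented path with `k` arcs and vertices `0, ..., k`, and let `p` be one of its
vertices.  Suppose that every set of more than `m` vertices of `P` contains both ends of some
forward arc before `p` or some backward arc after `p`, and also both ends of some backward arc
before `p` or some forward arc after `p`.  Every oriented graph with all out- and indegrees at least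
`m + E` contains `P`, with the vertex `p` at any prescribed place, as soon as `E ^ 4` is at least
`6 * 10 ^ 6 * k ^ 3 * log (k + 1)`.  There is no upper bound on the degrees.
-/

namespace Pool.Agent.Results.MP_f8e2d3_co.TwoSided

open Finset Pool.Agent.Helper136_OrPath

theorem result :
    ∀ (k m : ℕ) (σ : Fin k → Bool) (p : Fin (k + 1)),
      (∀ (b : Bool) (A : Finset (Fin (k + 1))),
        (∀ i : Fin k, ((i : ℕ) < (p : ℕ) ∧ σ i = b) ∨ ((p : ℕ) ≤ (i : ℕ) ∧ σ i ≠ b) →
          ¬ (i.castSucc ∈ A ∧ i.succ ∈ A)) → A.card ≤ m) →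
      ∀ (E : ℝ), 0 ≤ E → 6 * 10 ^ 6 * (k : ℝ) ^ 3 * Real.log ((k : ℝ) + 1) ≤ E ^ 4 →
      ∀ (V : Type) [Finite V] (G : Digraph V),
      (∀ v, ¬ G.Adj v v) →
      (∀ u v, G.Adj u v → ¬ G.Adj v u) →
      (∀ v, (m : ℝ) + E ≤ ({w | G.Adj v w}.ncard : ℝ) ∧
        (m : ℝ) + E ≤ ({w | G.Adj w v}.ncard : ℝ)) →
      ∀ v₀ : V, ∃ f : Fin (k + 1) → V, Function.Injective f ∧ f p = v₀ ∧
        ∀ i : Fin k, (σ i = true → G.Adj (f i.castSucc) (f i.succ)) ∧
          (σ i = false → G.Adj (f i.succ) (f i.castSucc)) := by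
  classical
  intro k m σ p hm E hE0 hE V _ G _ hasym hd v₀
  have : Fintype V := Fintype.ofFinite V
  have hcard : ∀ (b : Bool) (v : V), (nb G.Adj b v).card =
      if b then {w | G.Adj v w}.ncard else {w | G.Adj w v}.ncard := by
    intro b v
    cases b
    · rw [if_neg (by simp)]
      rw [← Set.ncard_coe_finset]
      congr 1
      ext z
      simp [mem_nb]
    · rw [if_pos rfl]
      rw [← Set.ncard_coe_finset]
      congr 1
      ext z
      simp [mem_nb]
  have hlow : ∀ (b : Bool) (v : V), ⌈(m : ℝ) + E⌉₊ ≤ (nb G.Adj b v).card := by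
    intro b v
    rw [hcard]
    cases b
    · rw [if_neg (by simp)]
      exact Nat.ceil_le.2 (hd v).2
    · rw [if_pos rfl]
      exact Nat.ceil_le.2 (hd v).1
  rcases Nat.eq_zero_or_pos k with hk0 | hkpos
  · subst hk0
    refine ⟨fun _ => v₀, ?_, rfl, fun i => i.elim0⟩
    intro a b _
    exact Fin.ext (by omega)
  obtain ⟨h1, h2⟩ := absorb k E 1 _ hkpos hE0 (by norm_num) rfl hE
  obtain ⟨f, hf1, hf2, hf3⟩ := path_two G.Adj hasym k p m ⌈(m : ℝ) + E⌉₊ (by omega) σ (by
      intro b A hA
      apply hm b A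
      intro i hi
      apply hA i
      rcases hi with ⟨h3, h4⟩ | ⟨h3, h4⟩
      · rw [if_pos h3]
        exact h4
      · rw [if_neg (by omega)]
        cases b <;> simp_all) hlow (E - 1) h2 h1
    (by
      have := Nat.le_ceil ((m : ℝ) + E)
      linarith) v₀
  refine ⟨f, hf1, hf2, ?_⟩
  intro i
  have h3 := hf3 i
  rw [mem_nb] at h3
  constructor
  · intro hi
    rw [hi, if_pos rfl] at h3
    exact h3
  · intro hi
    rw [hi, if_neg (by simp)] at h3
    exact h3

end Pool.Agent.Results.MP_f8e2d3_co.TwoSided
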